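import Pool.Agent.Lib.MP_4a3daa_an.H90.Main
import Pool.Agent.Lib.MP_4a3daa_an.H90.Exist
import Pool.Agent.Lib.MP_4a3daa_an.H90.Uniq

/-!
# The spaces `X^n_{0,1}` are not minimal

For every `n ≥ 1` the implicit formula has exactly one solution, so that the space
`X^n_{0,1}` exists and is unique up to isometry, and it is not minimal.
-/

namespace Pool.Agent.Results.MP_4a3daa_an.NotMinimal

open Pool.MP4a3daa

/-- For every `n ≥ 1`: there is exactly one norm on `c₀₀` which satisfies the implicit formula,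
the completion `X^n_{0,1}` of `c₀₀` for this norm exists, and it is not minimal: it has a closed
infinite-dimensional subspace none of whose closed infinite-dimensional subspaces is isomorphic
to `X^n_{0,1}`. -/
theorem result (n : ℕ) (hn : 1 ≤ n) :
    (∃! N : C00 → ℝ, IsImplicitNorm n N) ∧
    (∃ (X : Type) (_ : NormedAddCommGroup X) (_ : NormedSpace ℝ X) (_ : CompleteSpace X)
      (ι : C00 →ₗ[ℝ] X), IsX01 n X ι) ∧
    ∀ (X : Type*) [NormedAddCommGroup X] [NormedSpace ℝ X] [CompleteSpace X]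
      (ι : C00 →ₗ[ℝ] X), IsX01 n X ι → ¬ IsMinimal X := by
  obtain ⟨N, hN⟩ := exists_norm n
  refine ⟨⟨N, hN, fun N' hN' => unique_norm hN' hN⟩, exists_space n, ?_⟩
  intro X _ _ _ ι hX hmin
  obtain ⟨m, rfl⟩ : ∃ m, n = m + 1 := ⟨n - 1, by omega⟩
  refine not_minimal ι hX.implicit fun Y hY hYinf => ?_
  obtain ⟨Z, hZY, _, _, hZ⟩ := hmin Y hY hYinf
  exact ⟨Z, hZY, hZ⟩

end Pool.Agent.Results.MP_4a3daa_an.NotMinimal
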